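import Mathlib
import Pool.Agent.H10.FreeQ
import Pool.Agent.H10.Precol

namespace Pool.Agent.Results.MP_0be93d_co.Iff

open Cardinal Matrix Quaternion Pool.Agent.H10.FreeQ Pool.Agent.H10.Precol

abbrev M3 := Matrix (Fin 3) (Fin 3) ℝ

/-- The unit sphere of `R^3`. -/
def S2 : Type := {v : Fin 3 → ℝ // v ⬝ᵥ v = 1}

/-- `O(3)` -/
def O3 : Set M3 := {A | Aᵀ * A = 1}

/-- `SO(3)` -/
def SO3 : Set M3 := {A | Aᵀ * A = 1 ∧ A.det = 1}

/-- A 2-colouring preserved by no element of `Γ` other than the identity. -/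
def Dist (Γ : Set M3) (c : S2 → ZMod 2) : Prop :=
  ∀ A ∈ Γ, (∀ x y : S2, A *ᵥ x.1 = y.1 → c y = c x) → A = 1

/-- Trivial pointwise stabilizer. -/
def Adm (Γ : Set M3) (W : Set S2) : Prop :=
  ∀ A ∈ Γ, (∀ x ∈ W, A *ᵥ x.1 = x.1) → A = 1

/-- The precolouring extension property: every colouring of the complement of `W` extends to a
distinguishing colouring. -/
def P (Γ : Set M3) (W : Set S2) : Prop :=
  ∀ c : S2 → ZMod 2, ∃ c' : S2 → ZMod 2, (∀ x, x ∉ W → c' x = c x) ∧ Dist Γ c'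

theorem dot_pres {A : M3} (hA : Aᵀ * A = 1) (u v : Fin 3 → ℝ) :
    (A *ᵥ u) ⬝ᵥ (A *ᵥ v) = u ⬝ᵥ v := by
  rw [dotProduct_mulVec, vecMul_mulVec, hA, vecMul_one]

def act (A : O3) (x : S2) : S2 := ⟨A.1 *ᵥ x.1, by rw [dot_pres A.2, x.2]⟩

theorem act_inj (A : O3) : Function.Injective (act A) := by
  intro x y h
  have h1 : A.1 *ᵥ x.1 = A.1 *ᵥ y.1 := congrArg Subtype.val h
  have h2 := congrArg (fun v => A.1ᵀ *ᵥ v) h1
  simp only [mulVec_mulVec] at h2
  rw [A.2, one_mulVec, one_mulVec] at h2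
  exact Subtype.ext h2

theorem agree3 (A B : M3) (u v w : Fin 3 → ℝ) (hd : (Matrix.of ![u, v, w]).det ≠ 0)
    (h1 : A *ᵥ u = B *ᵥ u) (h2 : A *ᵥ v = B *ᵥ v) (h3 : A *ᵥ w = B *ᵥ w) : A = B := by
  have hu : IsUnit (Matrix.of ![u, v, w])ᵀ := by
    rw [Matrix.isUnit_iff_isUnit_det, det_transpose]; exact isUnit_iff_ne_zero.mpr hd
  refine hu.mul_right_cancel ?_
  ext i j
  fin_cases j
  · exact congrFun h1 i
  · exact congrFun h2 i
  · exact congrFun h3 i

theorem agree2 (A B : M3) (hA : Aᵀ * A = 1) (hB : Bᵀ * B = 1) (hd : A.det = B.det) (u v : S2)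
    (huv : u ≠ v) (huv' : u.1 ≠ -v.1) (h1 : A *ᵥ u.1 = B *ᵥ u.1) (h2 : A *ᵥ v.1 = B *ᵥ v.1) :
    A = B := by
  have key : ∀ C : M3, Cᵀ * C = 1 →
      C.det • C *ᵥ (u.1 ⨯₃ v.1) = (C *ᵥ u.1) ⨯₃ (C *ᵥ v.1) := by
    intro C hC
    have : Cᵀ *ᵥ ((C *ᵥ u.1) ⨯₃ (C *ᵥ v.1)) = C.det • (u.1 ⨯₃ v.1) := by
      ext i; fin_cases i <;>
        simp [cross_apply, mulVec, dotProduct, Fin.sum_univ_three, det_fin_three] <;> ring
    rw [← mulVec_smul, ← this, mulVec_mulVec, mul_eq_one_comm.mp hC, one_mulVec]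
  have hd0 : B.det ≠ 0 := by
    intro h; have := congrArg det hB; rw [det_mul, h] at this; simp at this
  refine agree3 A B u.1 v.1 (u.1 ⨯₃ v.1) ?_ h1 h2 ?_
  · intro h
    have hu := u.2
    have hv := v.2
    simp [det_fin_three, cross_apply] at h
    simp only [dotProduct, Fin.sum_univ_three] at hu hv
    have h3 : (u.1 0 * v.1 0 + u.1 1 * v.1 1 + u.1 2 * v.1 2 - 1) *
        (u.1 0 * v.1 0 + u.1 1 * v.1 1 + u.1 2 * v.1 2 + 1) = 0 := by
      linear_combination (v.1 0 * v.1 0 + v.1 1 * v.1 1 + v.1 2 * v.1 2) * hu + hv - h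
    rcases mul_eq_zero.mp h3 with h4 | h4
    · apply huv; apply Subtype.ext; ext i
      have : (u.1 0 - v.1 0) ^ 2 + (u.1 1 - v.1 1) ^ 2 + (u.1 2 - v.1 2) ^ 2 = 0 := by
        linear_combination hu + hv - 2 * h4
      fin_cases i <;> simp <;> nlinarith [sq_nonneg (u.1 0 - v.1 0), sq_nonneg (u.1 1 - v.1 1),
        sq_nonneg (u.1 2 - v.1 2)]
    · apply huv'; ext i
      have : (u.1 0 + v.1 0) ^ 2 + (u.1 1 + v.1 1) ^ 2 + (u.1 2 + v.1 2) ^ 2 = 0 := by
        linear_combination hu + hv + 2 * h4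
      fin_cases i <;> simp <;> nlinarith [sq_nonneg (u.1 0 + v.1 0), sq_nonneg (u.1 1 + v.1 1),
        sq_nonneg (u.1 2 + v.1 2)]
  · have h3 := key A hA
    rw [h1, h2, ← key B hB, hd] at h3
    exact smul_right_injective _ hd0 h3

theorem two_pts (T : Set S2) (hT : ¬ T.Countable) : ∃ u ∈ T, ∃ v ∈ T, u ≠ v ∧ u.1 ≠ -v.1 := by
  by_contra h
  push Not at h
  apply hT
  rcases T.eq_empty_or_nonempty with rfl | ⟨v, hv⟩
  · simp
  · refine (((Set.toFinite {v.1, -v.1}).preimage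
      (f := (Subtype.val : S2 → _)) Subtype.val_injective.injOn).subset fun u hu => ?_).countable
    by_cases e : u = v
    · exact Or.inl (congrArg _ e)
    · exact Or.inr (h u hu v hv e)

theorem det_pm {A : M3} (hA : Aᵀ * A = 1) : A.det = 1 ∨ A.det = -1 := by
  have := congrArg det hA
  rw [det_mul, det_transpose, det_one] at this
  exact mul_self_eq_one_iff.mp this

theorem dirB (Γ : Set M3) (hΓ : Γ ⊆ O3) (W : Set S2) (hW : ¬ W.Countable) (hadm : Adm Γ W)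
    (hlt : (𝔠 : Cardinal.{0}) < 2 ^ ℵ₁) : P Γ W := by
  classical
  intro c
  obtain ⟨W1, hW1, hc1⟩ := le_mk_iff_exists_subset.mp
    (not_lt.mp fun h => hW ((countable_iff_lt_aleph_one W).mpr h))
  have hW1u : ¬ W1.Countable := by rw [countable_iff_lt_aleph_one, hc1]; exact lt_irrefl _
  have uniq : ∀ A : O3, A.1 ≠ 1 → {w ∈ W1 | act A w ≠ w}.Countable →
      ∀ B : O3, B.1 ≠ 1 → {w ∈ W1 | act B w ≠ w}.Countable → A = B := by
    have one : ∀ A : O3, A.1 ≠ 1 → {w ∈ W1 | act A w ≠ w}.Countable → A.1.det = -1 := by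
      intro A hA hc
      refine (det_pm A.2).resolve_left fun hd => hA ?_
      obtain ⟨u, hu, v, hv, h1, h2⟩ := two_pts {w ∈ W1 | act A w = w} fun h =>
        hW1u ((h.union hc).mono fun w hw => by by_cases e : act A w = w <;> simp [hw, e])
      exact agree2 _ _ A.2 (by simp) (by simp [hd]) u v h1 h2
        (by rw [one_mulVec]; exact congrArg Subtype.val hu.2)
        (by rw [one_mulVec]; exact congrArg Subtype.val hv.2)
    intro A hA hc B hB hc'
    obtain ⟨u, hu, v, hv, h1, h2⟩ := two_pts {w ∈ W1 | act A w = w ∧ act B w = w} fun h =>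
      hW1u ((h.union (hc.union hc')).mono fun w hw => by
        by_cases e : act A w = w <;> by_cases e' : act B w = w <;> simp [hw, e, e'])
    exact Subtype.ext (agree2 _ _ A.2 B.2 (by rw [one A hA hc, one B hB hc']) u v h1 h2
      (congrArg Subtype.val (hu.2.1.trans hu.2.2.symm))
      (congrArg Subtype.val (hv.2.1.trans hv.2.2.symm)))
  obtain ⟨c0, p, q, hc0, hpq⟩ : ∃ (c0 : S2 → ZMod 2) (p q : S2), (∀ x, x ∉ W → c0 x = c x) ∧
      ∀ A : O3, A.1 ∈ Γ → A.1 ≠ 1 → {w ∈ W1 | act A w ≠ w}.Countable →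
        act A p = q ∧ c0 q ≠ c0 p := by
    by_cases h : ∃ A : O3, A.1 ∈ Γ ∧ A.1 ≠ 1 ∧ {w ∈ W1 | act A w ≠ w}.Countable
    · obtain ⟨A, hA, hA1, hAc⟩ := h
      obtain ⟨p, hp, hp2⟩ : ∃ p ∈ W, act A p ≠ p := by
        by_contra h; push Not at h
        exact hA1 (hadm _ hA fun x hx => congrArg Subtype.val (h x hx))
      refine ⟨Function.update c p (c (act A p) + 1), p, act A p,
        fun x hx => Function.update_of_ne (fun e : x = p => hx (e ▸ hp)) _ _, fun B _ hB1 hBc => ?_⟩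
      rw [uniq B hB1 hBc A hA1 hAc, Function.update_of_ne hp2, Function.update_self]
      simp
    · obtain ⟨p, -⟩ := two_pts W hW
      exact ⟨c, p, p, fun _ _ => rfl, fun A h1 h2 h3 => absurd ⟨A, h1, h2, h3⟩ h⟩
  have hc2 : #(W1 \ {p, q} : Set S2) = ℵ₁ := by
    refine le_antisymm ((mk_le_mk_of_subset Set.diff_subset).trans hc1.le) (not_lt.mp fun h => ?_)
    exact hW1u ((((countable_iff_lt_aleph_one _).mpr h).union
      (Set.toFinite {p, q}).countable).mono fun w hw => by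
        by_cases e : w ∈ ({p, q} : Set S2); exacts [Or.inr e, Or.inl ⟨hw, e⟩])
  obtain ⟨c', h1, h2⟩ := absB (G := {A : O3 // ¬ {w ∈ W1 | act A w ≠ w}.Countable})
    (fun A => act A.1) (fun A => act_inj A.1)
    ((mk_subtype_le _).trans ((mk_set_le _).trans (by
      show #(Fin 3 → Fin 3 → ℝ) ≤ 𝔠
      have h3 : ∀ (Y : Type), #Y ≤ 𝔠 → #(Fin 3 → Y) ≤ 𝔠 := fun Y hY => by
        rw [← power_def]
        calc #Y ^ #(Fin 3) ≤ 𝔠 ^ ℵ₀ := (power_le_power_right hY).trans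
              (power_le_power_left continuum_ne_zero mk_le_aleph0)
          _ = 𝔠 := continuum_power_aleph0
      exact h3 _ (h3 _ mk_real.le))))
    (W1 \ {p, q}) hc2
    (fun A h => A.2 ((h.union (Set.toFinite {p, q}).countable).mono fun w hw => by
        by_cases e : w ∈ ({p, q} : Set S2); exacts [Or.inr e, Or.inl ⟨⟨hw.1, e⟩, hw.2⟩]))
    (by
      have hch : ∀ A : {A : {A : O3 // ¬ {w ∈ W1 | act A w ≠ w}.Countable} |
          ¬ {w ∈ W1 \ {p, q} | act A.1 w ∈ W1 \ {p, q}}.Countable}, _ := fun A => two_pts _ A.2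
      choose u hu v hv h1 h2 using hch
      refine (mk_le_of_injective (f := fun A => ((((⟨u A, hu A |>.1.1⟩ : W1),
        (⟨v A, hv A |>.1.1⟩ : W1)), ((⟨act A.1.1 (u A), hu A |>.2.1⟩ : W1),
        (⟨act A.1.1 (v A), hv A |>.2.1⟩ : W1))), decide (A.1.1.1.det = 1))) ?_).trans ?_
      · intro A B e
        simp only [Prod.mk.injEq, Subtype.mk.injEq, decide_eq_decide] at e
        obtain ⟨⟨⟨e1, e2⟩, e3, e4⟩, e5⟩ := e
        rw [← e1] at e3
        rw [← e2] at e4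
        refine Subtype.ext (Subtype.ext (Subtype.ext (agree2 _ _ A.1.1.2 B.1.1.2 ?_ _ _ (h1 A)
          (h2 A) (congrArg Subtype.val e3) (congrArg Subtype.val e4))))
        rcases det_pm A.1.1.2 with a | a <;> rcases det_pm B.1.1.2 with b | b
        · rw [a, b]
        · rw [e5.mp a] at b; norm_num at b
        · rw [e5.mpr b] at a; norm_num at a
        · rw [a, b]
      · have hm : ∀ a b : Cardinal.{0}, a ≤ ℵ₁ → b ≤ ℵ₁ → a * b ≤ ℵ₁ :=
          fun a b => mul_le_of_le aleph0_lt_aleph_one.le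
        simp only [mk_prod, lift_id, hc1]
        exact hm _ _ (hm _ _ (hm _ _ le_rfl le_rfl) (hm _ _ le_rfl le_rfl))
          (mk_le_aleph0.trans aleph0_lt_aleph_one.le))
    hlt c0
  refine ⟨c', fun x hx => (h1 x fun h => hx (hW1 h.1)).trans (hc0 x hx), fun A hA hinv => ?_⟩
  by_contra hA1
  by_cases hc : {w ∈ W1 | act ⟨A, hΓ hA⟩ w ≠ w}.Countable
  · obtain ⟨e1, e2⟩ := hpq ⟨A, hΓ hA⟩ hA hA1 hc
    apply e2
    rw [← h1 q (by simp), ← h1 p (by simp)]
    exact hinv p q (congrArg Subtype.val e1)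
  · obtain ⟨x, hx⟩ := h2 ⟨⟨A, hΓ hA⟩, hc⟩
    exact hx (hinv x _ rfl)

def rot : ℍ →* M3 where
  toFun q := !![q.re ^ 2 + q.imI ^ 2 - q.imJ ^ 2 - q.imK ^ 2, 2 * (q.imI * q.imJ - q.re * q.imK),
      2 * (q.imI * q.imK + q.re * q.imJ);
    2 * (q.imI * q.imJ + q.re * q.imK), q.re ^ 2 - q.imI ^ 2 + q.imJ ^ 2 - q.imK ^ 2,
      2 * (q.imJ * q.imK - q.re * q.imI);
    2 * (q.imI * q.imK - q.re * q.imJ), 2 * (q.imJ * q.imK + q.re * q.imI),
      q.re ^ 2 - q.imI ^ 2 - q.imJ ^ 2 + q.imK ^ 2]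
  map_one' := by ext i j; fin_cases i <;> fin_cases j <;> simp
  map_mul' p q := by
    ext i j; fin_cases i <;> fin_cases j <;> simp [Matrix.mul_apply, Fin.sum_univ_three] <;> ring

theorem rot_mem (q : ℍ) (h : q.re ^ 2 + q.imI ^ 2 + q.imJ ^ 2 + q.imK ^ 2 = 1) :
    rot q ∈ SO3 := by
  constructor
  · have : (rot q)ᵀ * rot q = ((q.re ^ 2 + q.imI ^ 2 + q.imJ ^ 2 + q.imK ^ 2) ^ 2) • (1 : M3) := by
      ext i j; fin_cases i <;> fin_cases j <;>
        simp [rot, Matrix.mul_apply, Fin.sum_univ_three] <;> ring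
    rw [this, h]; simp
  · have : (rot q).det = (q.re ^ 2 + q.imI ^ 2 + q.imJ ^ 2 + q.imK ^ 2) ^ 3 := by
      simp [rot, det_fin_three]; ring
    rw [this, h]; simp

theorem dirA (h : (2 : Cardinal.{0}) ^ ℵ₁ = 𝔠) :
    ∃ W : Set S2, ¬ W.Countable ∧ Adm O3 W ∧ ¬ P SO3 W := by
  classical
  obtain ⟨τ, hτ⟩ := exists_indep (ι := ℝ) mk_real.le
  have hN : ∀ γ : FreeGroup ℝ, let q := (FreeGroup.lift (un τ) γ : ℍˣ).val
      q.re ^ 2 + q.imI ^ 2 + q.imJ ^ 2 + q.imK ^ 2 = 1 := by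
    intro γ q
    rw [← Quaternion.normSq_def', Quaternion.normSq_eq_norm_mul_self, lift_norm, mul_one]
  let R : FreeGroup ℝ →* M3 := rot.comp ((Units.coeHom ℍ).comp (FreeGroup.lift (un τ)))
  have hR : ∀ γ, R γ ∈ SO3 := fun γ => rot_mem _ (hN γ)
  let e : S2 := ⟨![1, 0, 0], by simp⟩
  let pt : FreeGroup ℝ → S2 := fun γ => act ⟨R γ, (hR γ).1⟩ e
  have pt_mul : ∀ a γ, (pt (a * γ)).1 = R a *ᵥ (pt γ).1 := fun a γ => by
    show R (a * γ) *ᵥ e.1 = R a *ᵥ (R γ *ᵥ e.1)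
    rw [map_mul, mulVec_mulVec]
  have pt_one : (pt 1).1 = e.1 := by show R 1 *ᵥ e.1 = e.1; rw [map_one, one_mulVec]
  have stab : ∀ γ, (pt γ).1 = e.1 → γ = 1 := by
    intro γ hγ
    have h0 : (R γ *ᵥ ![1, 0, 0]) 0 = 1 := congrFun hγ 0
    have h1 := hN γ
    obtain ⟨c, hc⟩ := lift_wv τ γ.toWord
    rw [FreeGroup.mk_toWord] at hc
    have hc0 : c ≠ 0 := by
      rintro rfl
      exact (FreeGroup.lift (un τ) γ).ne_zero (by simpa using hc)
    simp [R, rot, mulVec, dotProduct, Fin.sum_univ_three] at h0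
    simp only at h1
    have hJ : (FreeGroup.lift (un τ) γ : ℍˣ).val.imJ = 0 := by nlinarith
    have hK : (FreeGroup.lift (un τ) γ : ℍˣ).val.imK = 0 := by nlinarith
    rw [hc] at hJ hK
    simp [hc0] at hJ hK
    exact FreeGroup.toWord_eq_nil_iff.mp (not_scalar τ hτ _ FreeGroup.isReduced_toWord hJ hK)
  have pt_inj : Function.Injective pt := by
    intro a b hab
    have : (pt (b⁻¹ * a)).1 = e.1 := by rw [pt_mul, hab, ← pt_mul, inv_mul_cancel, pt_one]
    exact (inv_mul_eq_one.mp (stab _ this)).symm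
  obtain ⟨T, -, hT⟩ := le_mk_iff_exists_subset.mp
    (show ℵ₁ ≤ #(Set.univ : Set ℝ) by rw [mk_univ, mk_real]; exact aleph_one_le_continuum)
  let U : Set (FreeGroup ℝ) := {1, FreeGroup.of 0, FreeGroup.of 1} ∪ FreeGroup.of '' T
  have hU : #U ≤ ℵ₁ := (mk_union_le _ _).trans (add_le_of_le aleph0_lt_aleph_one.le
    ((Set.toFinite _).lt_aleph0.le.trans aleph0_lt_aleph_one.le) (mk_image_le.trans hT.le))
  refine ⟨pt '' U, fun hc => ?_, fun A hA hfix => ?_, fun hP => ?_⟩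
  · have h1 : (FreeGroup.of '' T).Countable :=
      (Set.countable_of_injective_of_countable_image pt_inj.injOn hc).mono Set.subset_union_right
    have h2 := Set.countable_of_injective_of_countable_image FreeGroup.of_injective.injOn h1
    rw [countable_iff_lt_aleph_one, hT] at h2
    exact lt_irrefl _ h2
  · refine agree3 A 1 (pt 1).1 (pt (FreeGroup.of 0)).1 (pt (FreeGroup.of 1)).1 ?_
      (by rw [one_mulVec]; exact hfix _ ⟨_, Or.inl (by simp), rfl⟩)
      (by rw [one_mulVec]; exact hfix _ ⟨_, Or.inl (by simp), rfl⟩)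
      (by rw [one_mulVec]; exact hfix _ ⟨_, Or.inl (by simp), rfl⟩)
    have hv : ∀ i : ℝ, ∃ n : ℝ, n ≠ 0 ∧
        (pt (FreeGroup.of i)).1 1 = n * ((1 - τ (some i) ^ 2) * τ (some i)) ∧
        (pt (FreeGroup.of i)).1 2 = n * (τ none * (1 + τ (some i) ^ 2) * τ (some i)) := by
      intro i
      refine ⟨4 * ‖gen τ (i, true)‖⁻¹ ^ 2, mul_ne_zero (by norm_num)
        (pow_ne_zero _ (inv_ne_zero (norm_ne_zero_iff.mpr (gen_ne τ i)))), ?_, ?_⟩
      · show (R (FreeGroup.of i) *ᵥ ![1, 0, 0]) 1 = _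
        generalize hn : ‖gen τ (i, true)‖ = n
        simp only [R, MonoidHom.comp_apply, FreeGroup.lift_apply_of, un, hn]
        simp [rot, mulVec, dotProduct, Fin.sum_univ_three, gen]; ring
      · show (R (FreeGroup.of i) *ᵥ ![1, 0, 0]) 2 = _
        generalize hn : ‖gen τ (i, true)‖ = n
        simp only [R, MonoidHom.comp_apply, FreeGroup.lift_apply_of, un, hn]
        simp [rot, mulVec, dotProduct, Fin.sum_univ_three, gen]; ring
    obtain ⟨n, hn, a1, a2⟩ := hv 0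
    obtain ⟨m, hm, b1, b2⟩ := hv 1
    have hdet : (Matrix.of ![(pt 1).1, (pt (FreeGroup.of 0)).1, (pt (FreeGroup.of 1)).1]).det =
        2 * n * m * τ none * τ (some 0) * τ (some 1) * (τ (some 1) - τ (some 0)) *
          (τ (some 1) + τ (some 0)) := by
      rw [pt_one]
      simp [det_fin_three, e, a1, a2, b1, b2]; ring
    rw [hdet]
    have hs : τ (some 1) + τ (some 0) ≠ 0 := by
      intro h0
      have finj : Function.Injective (MvPolynomial.aeval τ : MvPolynomial (Option ℝ) ℚ →ₐ[ℚ] ℝ) :=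
        hτ
      have := finj (a₁ := MvPolynomial.X (some 1) + MvPolynomial.X (some 0)) (a₂ := 0)
        (by simpa using h0)
      have h2 := congrArg (MvPolynomial.eval fun _ => (1 : ℚ)) this
      norm_num at h2
    have hd : τ (some 1) - τ (some 0) ≠ 0 := sub_ne_zero.mpr fun h => by
      simpa using hτ.injective h
    have hz := hτ.ne_zero
    simp [hn, hm, hs, hd, hz]
  · have hle : #(U → ZMod 2) ≤ #ℝ := by
      rw [← power_def, mk_fintype (ZMod 2), ZMod.card, mk_real, ← h]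
      exact power_le_power_left (by simp) hU
    obtain ⟨emb⟩ := (Cardinal.le_def _ _).mp hle
    let f : ℝ → FreeGroup ℝ → ZMod 2 := fun i γ =>
      if hγ : γ ∈ U then Function.invFun emb i ⟨γ, hγ⟩ else 0
    obtain ⟨C, hC⟩ := cocF fun i γ => f i γ - f i (FreeGroup.of i * γ)
    obtain ⟨c', h1, h2⟩ := hP (Function.extend pt C 0)
    let i := emb fun γ : U => c' (pt γ) - C γ
    have hf : ∀ γ, c' (pt γ) = C γ + f i γ := by
      intro γ
      by_cases hγ : γ ∈ U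
      · simp only [f, dif_pos hγ, i, Function.leftInverse_invFun emb.injective _]; simp
      · rw [h1 _ fun ⟨δ, hδ, e⟩ => hγ (pt_inj e ▸ hδ), pt_inj.extend_apply]
        simp [f, hγ]
    have hone := h2 (R (FreeGroup.of i)) (hR _) fun x y hxy => by
      by_cases hx : ∃ γ, pt γ = x
      · obtain ⟨γ, rfl⟩ := hx
        have : y = pt (FreeGroup.of i * γ) := Subtype.ext (by rw [pt_mul, hxy])
        rw [this, hf, hf, hC]; abel
      · have hy : ¬ ∃ γ, pt γ = y := by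
          rintro ⟨γ, rfl⟩
          refine hx ⟨(FreeGroup.of i)⁻¹ * γ, Subtype.ext ?_⟩
          rw [pt_mul, ← hxy, mulVec_mulVec, ← map_mul, inv_mul_cancel, map_one, one_mulVec]
        rw [h1 x fun ⟨δ, _, e⟩ => hx ⟨δ, e⟩, h1 y fun ⟨δ, _, e⟩ => hy ⟨δ, e⟩,
          Function.extend_apply' _ _ _ hx, Function.extend_apply' _ _ _ hy]
        rfl
    refine FreeGroup.of_ne_one i (stab _ ?_)
    show R (FreeGroup.of i) *ᵥ e.1 = e.1
    rw [hone, one_mulVec]

theorem two_suffice : ∃ c : S2 → ZMod 2, Dist O3 c := by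
  classical
  let a : S2 := ⟨![1, 0, 0], by simp⟩
  let b : S2 := ⟨![3 / 5, 4 / 5, 0], by norm_num [dotProduct, Fin.sum_univ_succ]⟩
  let d : S2 := ⟨![0, 3 / 5, 4 / 5], by norm_num [dotProduct, Fin.sum_univ_succ]⟩
  refine ⟨fun x => if x = a ∨ x = b ∨ x = d then 1 else 0, fun A hA h => ?_⟩
  have hm : ∀ x : S2, (x = a ∨ x = b ∨ x = d) →
      (A *ᵥ x.1 = a.1 ∨ A *ᵥ x.1 = b.1 ∨ A *ᵥ x.1 = d.1) := by
    intro x hx
    have h1 := h x (act ⟨A, hA⟩ x) rfl
    simp only [if_pos hx] at h1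
    have h2 : act ⟨A, hA⟩ x = a ∨ act ⟨A, hA⟩ x = b ∨ act ⟨A, hA⟩ x = d := by
      by_contra h2; rw [if_neg h2] at h1; exact zero_ne_one h1
    exact h2.imp (congrArg Subtype.val) (Or.imp (congrArg Subtype.val) (congrArg Subtype.val))
  have hab := dot_pres hA a.1 b.1
  have had := dot_pres hA a.1 d.1
  have key : A *ᵥ a.1 = a.1 ∧ A *ᵥ b.1 = b.1 ∧ A *ᵥ d.1 = d.1 := by
    rcases hm a (Or.inl rfl) with h1 | h1 | h1 <;>
    rcases hm b (Or.inr (Or.inl rfl)) with h2 | h2 | h2 <;>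
    rcases hm d (Or.inr (Or.inr rfl)) with h3 | h3 | h3 <;>
    first
      | exact ⟨h1, h2, h3⟩
      | (exfalso; rw [h1, h2] at hab; revert hab
         norm_num [a, b, d, dotProduct, Fin.sum_univ_succ]; done)
      | (exfalso; rw [h1, h3] at had; revert had
         norm_num [a, b, d, dotProduct, Fin.sum_univ_succ]; done)
  refine agree3 A 1 a.1 b.1 d.1 ?_ (by rw [one_mulVec]; exact key.1)
    (by rw [one_mulVec]; exact key.2.1) (by rw [one_mulVec]; exact key.2.2)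
  simp [a, b, d, det_fin_three]

theorem result :
    (∃ c : S2 → ZMod 2, Dist O3 c) ∧
    ((∃ W : Set S2, ¬ W.Countable ∧ Adm O3 W ∧ ¬ P O3 W) ↔ (2 : Cardinal.{0}) ^ ℵ₁ = 𝔠) ∧
    ((∃ W : Set S2, ¬ W.Countable ∧ Adm SO3 W ∧ ¬ P SO3 W) ↔ (2 : Cardinal.{0}) ^ ℵ₁ = 𝔠) := by
  have hle : (𝔠 : Cardinal.{0}) ≤ 2 ^ ℵ₁ := by
    rw [← two_power_aleph0]; exact power_le_power_left two_ne_zero aleph0_lt_aleph_one.le
  refine ⟨two_suffice, ⟨?_, fun h => ?_⟩, ?_, fun h => ?_⟩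
  · rintro ⟨W, h1, h2, h3⟩
    by_contra h
    exact h3 (dirB O3 subset_rfl W h1 h2 (lt_of_le_of_ne hle (Ne.symm h)))
  · obtain ⟨W, h1, h2, h3⟩ := dirA h
    refine ⟨W, h1, h2, fun hP => h3 fun c => ?_⟩
    obtain ⟨c', h4, h5⟩ := hP c
    exact ⟨c', h4, fun A hA => h5 A hA.1⟩
  · rintro ⟨W, h1, h2, h3⟩
    by_contra h
    exact h3 (dirB SO3 (fun A hA => hA.1) W h1 h2 (lt_of_le_of_ne hle (Ne.symm h)))
  · obtain ⟨W, h1, h2, h3⟩ := dirA h
    exact ⟨W, h1, fun A hA => h2 A hA.1, h3⟩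

end Pool.Agent.Results.MP_0be93d_co.Iff
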